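import Mathlib
import Pool.Agent.Q90.MeasDefs
import Pool.Agent.Q90.MeasIdeal

/-!
# A weak*-closed ideal of a measure algebra that is not finitely generated

The definitions are in `Pool.Agent.Q90.MeasDefs`: `Meas G` is `M(G) = C(G)*` with its weak*
topology (`G` compact), `conv` is the convolution.
-/

set_option autoImplicit false

open Q90.MeasIdeal

namespace Pool.Agent.Results.MP_6afee3_an.WeakStarClosedIdeal

/-- **Q1 has a positive answer.** Let `G = {1, -1}^ℕ` be the Cantor group, a compact abelian
group. There is a weak*-closed (hence norm-closed) left ideal `J` of `M(G)` that is not finitely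
generated. -/
theorem result : ∃ J : Submodule ℂ (Meas (ℕ → ℤˣ)),
    IsClosed (J : Set (Meas (ℕ → ℤˣ))) ∧ IsLeftIdeal J ∧ ¬ FinitelyGenerated J :=
  ⟨J, isClosed_J, isLeftIdeal_J, not_finitelyGenerated_J⟩

end Pool.Agent.Results.MP_6afee3_an.WeakStarClosedIdeal
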